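import Mathlib

/-!
# An explicit graph that is not Archimedean

The graph `Pool.Agent.W126.NonArch.exampleGraph` has 23 vertices and 42 edges: two poles, seven
rim vertices `v_0, …, v_6` joined to both poles, and for every `i` modulo `7` two inner vertices
joined exactly to `v_i` and `v_{i+1}`.  (It is planar and bipartite.)  It is not a
`φ`-tolerance graph for the Archimedean function `φ(x,y) = 4 ^ ⌈max(x,y)⌉`.
-/

set_option autoImplicit false

namespace Pool.Agent.W126.NonArch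

/-- Length of the intersection of the closed intervals `[a,b]` and `[c,d]` (for `a ≤ b`, `c ≤ d`);
it is `0` if the intersection is empty. -/
def overlap (a b c d : ℝ) : ℝ := max 0 (min b d - max a c)

/-- `G` is a `φ`-tolerance graph: there are closed bounded intervals `[a v, b v]` and positive
reals `t v` such that distinct vertices `u`, `v` are adjacent iff the length of the intersection of
their intervals is at least `φ (t u) (t v)`. -/
def IsToleranceGraph {V : Type} (φ : ℝ → ℝ → ℝ) (G : SimpleGraph V) : Prop :=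
  ∃ a b t : V → ℝ, (∀ v, a v ≤ b v) ∧ (∀ v, 0 < t v) ∧
    ∀ u v, u ≠ v → (G.Adj u v ↔ φ (t u) (t v) ≤ overlap (a u) (b u) (a v) (b v))

/-- Symmetric, positive-valued functions of two positive real variables that tend to infinity
whenever one of the variables does. Only the values at positive arguments matter. -/
def IsArchimedeanFunction (φ : ℝ → ℝ → ℝ) : Prop :=
  (∀ x y, 0 < x → 0 < y → φ x y = φ y x) ∧
  (∀ x y, 0 < x → 0 < y → 0 < φ x y) ∧
  (∀ c, 0 < c → Filter.Tendsto (fun x => φ x c) Filter.atTop Filter.atTop) ∧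
  (∀ c, 0 < c → Filter.Tendsto (fun x => φ c x) Filter.atTop Filter.atTop)

/-- A graph is non-Archimedean if it fails to be a `φ`-tolerance graph for some Archimedean `φ`. -/
def NonArchimedean {V : Type} (G : SimpleGraph V) : Prop :=
  ∃ φ : ℝ → ℝ → ℝ, IsArchimedeanFunction φ ∧ ¬ IsToleranceGraph φ G

/-- The 23 vertices: two poles, seven rim vertices and fourteen inner vertices. -/
inductive Vtx where
  | pole (j : Fin 2)
  | rim (i : Fin 7)
  | inner (i : Fin 7) (s : Fin 2)
  deriving DecidableEq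

/-- Adjacency: every pole is joined to every rim vertex, and the inner vertices `inner i s` are
joined exactly to the rim vertices `rim i` and `rim (i + 1)` (indices modulo `7`). -/
def adj : Vtx → Vtx → Prop
  | .pole _, .rim _ => True
  | .rim _, .pole _ => True
  | .rim i, .inner j _ => i = j ∨ i = j + 1
  | .inner j _, .rim i => i = j ∨ i = j + 1
  | _, _ => False

/-- The explicit graph on 23 vertices. -/
def exampleGraph : SimpleGraph Vtx where
  Adj := adj
  symm := ⟨by
    intro u v h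
    cases u <;> cases v <;> simp_all [adj]⟩
  loopless := ⟨by
    intro u h
    cases u <;> simp_all [adj]⟩

/-! ### Inequalities for overlaps -/

lemma le_overlap {a b c d x : ℝ} (hx : 0 < x) (h : x ≤ overlap a b c d) :
    x ≤ b - a ∧ x ≤ b - c ∧ x ≤ d - a ∧ x ≤ d - c := by
  unfold overlap at h
  rcases le_max_iff.1 h with h | h
  · exact absurd h (not_le.2 hx)
  · have h1 := min_le_left b d
    have h2 := min_le_right b d
    have h3 := le_max_left a c
    have h4 := le_max_right a c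
    refine ⟨?_, ?_, ?_, ?_⟩ <;> linarith

lemma overlap_lt {a b c d x : ℝ} (h : overlap a b c d < x) :
    b - a < x ∨ b - c < x ∨ d - a < x ∨ d - c < x := by
  unfold overlap at h
  have h0 := (max_lt_iff.1 h).2
  rcases min_choice b d with h1 | h1 <;> rcases max_choice a c with h2 | h2 <;>
    rw [h1, h2] at h0
  · exact Or.inl h0
  · exact Or.inr (Or.inl h0)
  · exact Or.inr (Or.inr (Or.inl h0))
  · exact Or.inr (Or.inr (Or.inr h0))

/-- A representation with tolerances in a set in which distinct values differ by a factor of at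
least four. -/
structure Rep {V : Type} (G : SimpleGraph V) where
  a : V → ℝ
  b : V → ℝ
  T : V → ℝ
  pos : ∀ v, 0 < T v
  sep : ∀ u v, T u < T v → 4 * T u ≤ T v
  adj : ∀ u v, G.Adj u v → (T u ≤ b u - a u ∧ T u ≤ b u - a v ∧ T u ≤ b v - a u ∧ T u ≤ b v - a v)
  non : ∀ u v, u ≠ v → ¬ G.Adj u v → ∀ m, T u ≤ m → T v ≤ m →
    (b u - a u < m ∨ b u - a v < m ∨ b v - a u < m ∨ b v - a v < m)

variable {V : Type} {G : SimpleGraph V} (R : Rep G)

/-- Equal tolerances at opposite vertices of an induced four-cycle. -/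
lemma equal_opposite {p q x y : V} (hpq : p ≠ q) (hpqn : ¬ G.Adj p q) (hxy : x ≠ y)
    (hxyn : ¬ G.Adj x y) (hpx : G.Adj p x) (hpy : G.Adj p y) (hqx : G.Adj q x) (hqy : G.Adj q y)
    (hT : R.T p = R.T q) (hx : R.T x ≤ R.T p) (hy : R.T y ≤ R.T p) : False := by
  obtain ⟨h1, h2, h3, h4⟩ := R.adj p x hpx
  obtain ⟨h5, h6, h7, h8⟩ := R.adj p y hpy
  obtain ⟨h9, h10, h11, h12⟩ := R.adj q x hqx
  obtain ⟨h13, h14, h15, h16⟩ := R.adj q y hqy
  have hp := R.pos p
  rcases R.non p q hpq hpqn (R.T p) le_rfl hT.symm.le with h | h | h | h <;>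
    rcases R.non x y hxy hxyn (R.T p) hx hy with h' | h' | h' | h' <;> linarith

set_option maxHeartbeats 4000000 in
/-- Four common neighbours of smaller tolerance. -/
lemma four_low {p q : V} {x : Fin 4 → V} (hpq : p ≠ q) (hpqn : ¬ G.Adj p q)
    (hx : ∀ i j, i ≠ j → x i ≠ x j ∧ ¬ G.Adj (x i) (x j))
    (hp : ∀ i, G.Adj p (x i)) (hq : ∀ i, G.Adj q (x i)) (hqp : R.T q ≤ R.T p)
    (hlow : ∀ i, R.T (x i) < R.T p) : False := by
  have hpos := R.pos p
  have hA : ∀ i, R.T p ≤ R.b (x i) - R.a (x i) ∧ R.T p ≤ R.b (x i) - R.a p ∧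
      R.T p ≤ R.b p - R.a (x i) := by
    intro i
    obtain ⟨h1, h2, h3, h4⟩ := R.adj p (x i) (hp i)
    exact ⟨h4, h3, h2⟩
  have hB : ∀ i, 0 < R.b (x i) - R.a q ∧ 0 < R.b q - R.a (x i) := by
    intro i
    obtain ⟨h1, h2, h3, h4⟩ := R.adj q (x i) (hq i)
    have := R.pos q
    exact ⟨by linarith, by linarith⟩
  have hC : ∀ i j, i ≠ j → (R.b (x i) - R.a (x j) < R.T p / 4 ∨
      R.b (x j) - R.a (x i) < R.T p / 4) := by
    intro i j hij
    have h1 := R.sep _ _ (hlow i)
    have h2 := R.sep _ _ (hlow j)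
    obtain ⟨h3, h4⟩ := hx i j hij
    obtain ⟨h5, h6, h7⟩ := hA i
    obtain ⟨h8, h9, h10⟩ := hA j
    rcases R.non _ _ h3 h4 (R.T p / 4) (by linarith) (by linarith) with h | h | h | h
    · exfalso; linarith
    · exact Or.inl h
    · exact Or.inr h
    · exfalso; linarith
  have hD := R.non p q hpq hpqn (R.T p) le_rfl hqp
  obtain ⟨a0, b0, c0⟩ := hA 0
  obtain ⟨a1, b1, c1⟩ := hA 1
  obtain ⟨a2, b2, c2⟩ := hA 2
  obtain ⟨a3, b3, c3⟩ := hA 3
  obtain ⟨d0, e0⟩ := hB 0
  obtain ⟨d1, e1⟩ := hB 1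
  obtain ⟨d2, e2⟩ := hB 2
  obtain ⟨d3, e3⟩ := hB 3
  rcases hC 0 1 (by decide) with h01 | h01 <;> rcases hC 0 2 (by decide) with h02 | h02 <;>
  rcases hC 0 3 (by decide) with h03 | h03 <;> rcases hC 1 2 (by decide) with h12 | h12 <;>
  rcases hC 1 3 (by decide) with h13 | h13 <;> rcases hC 2 3 (by decide) with h23 | h23 <;>
  rcases hD with h | h | h | h <;> linarith

/-- Three common neighbours of smaller tolerance: the second hub is short. -/
lemma three_low {p q : V} {x : Fin 3 → V} (hpq : p ≠ q) (hpqn : ¬ G.Adj p q)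
    (hx : ∀ i j, i ≠ j → x i ≠ x j ∧ ¬ G.Adj (x i) (x j))
    (hp : ∀ i, G.Adj p (x i)) (hq : ∀ i, G.Adj q (x i)) (hqp : R.T q ≤ R.T p)
    (hlow : ∀ i, R.T (x i) < R.T p) : R.b q - R.a q < R.T p := by
  have hpos := R.pos p
  have hA : ∀ i, R.T p ≤ R.b (x i) - R.a (x i) ∧ R.T p ≤ R.b (x i) - R.a p ∧
      R.T p ≤ R.b p - R.a (x i) := by
    intro i
    obtain ⟨h1, h2, h3, h4⟩ := R.adj p (x i) (hp i)
    exact ⟨h4, h3, h2⟩
  have hB : ∀ i, 0 < R.b (x i) - R.a q ∧ 0 < R.b q - R.a (x i) := by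
    intro i
    obtain ⟨h1, h2, h3, h4⟩ := R.adj q (x i) (hq i)
    have := R.pos q
    exact ⟨by linarith, by linarith⟩
  have hC : ∀ i j, i ≠ j → (R.b (x i) - R.a (x j) < R.T p / 4 ∨
      R.b (x j) - R.a (x i) < R.T p / 4) := by
    intro i j hij
    have h1 := R.sep _ _ (hlow i)
    have h2 := R.sep _ _ (hlow j)
    obtain ⟨h3, h4⟩ := hx i j hij
    obtain ⟨h5, h6, h7⟩ := hA i
    obtain ⟨h8, h9, h10⟩ := hA j
    rcases R.non _ _ h3 h4 (R.T p / 4) (by linarith) (by linarith) with h | h | h | h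
    · exfalso; linarith
    · exact Or.inl h
    · exact Or.inr h
    · exfalso; linarith
  have hD := R.non p q hpq hpqn (R.T p) le_rfl hqp
  obtain ⟨a0, b0, c0⟩ := hA 0
  obtain ⟨a1, b1, c1⟩ := hA 1
  obtain ⟨a2, b2, c2⟩ := hA 2
  obtain ⟨d0, e0⟩ := hB 0
  obtain ⟨d1, e1⟩ := hB 1
  obtain ⟨d2, e2⟩ := hB 2
  by_contra hcon
  rw [not_lt] at hcon
  rcases hC 0 1 (by decide) with h01 | h01 <;> rcases hC 0 2 (by decide) with h02 | h02 <;>
  rcases hC 1 2 (by decide) with h12 | h12 <;>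
  rcases hD with h | h | h | h <;> linarith

/-- Four common neighbours whose tolerances do not exceed the larger one of the hubs. -/
lemma four_le {p q : V} {x : Fin 4 → V} (hpq : p ≠ q) (hpqn : ¬ G.Adj p q)
    (hx : ∀ i j, i ≠ j → x i ≠ x j ∧ ¬ G.Adj (x i) (x j))
    (hp : ∀ i, G.Adj p (x i)) (hq : ∀ i, G.Adj q (x i)) (hqp : R.T q ≤ R.T p)
    (hle : ∀ i, R.T (x i) ≤ R.T p) : False := by
  by_cases h : ∃ i, R.T (x i) = R.T p
  · obtain ⟨i, hi⟩ := h
    have hlow : ∀ j, j ≠ i → R.T (x j) < R.T p := by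
      intro j hj
      refine lt_of_le_of_ne (hle j) (fun hjp => ?_)
      obtain ⟨h1, h2⟩ := hx i j hj.symm
      exact equal_opposite R h1 h2 hpq hpqn (hp i).symm (hq i).symm (hp j).symm (hq j).symm
        (hi.trans hjp.symm) hi.symm.le (hqp.trans hi.symm.le)
    have h3 := three_low R (x := fun j => x (i.succAbove j)) hpq hpqn
      (fun j k hjk => hx _ _ (fun h => hjk (Fin.succAbove_right_injective h)))
      (fun j => hp _) (fun j => hq _) hqp (fun j => hlow _ (Fin.succAbove_ne i j))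
    obtain ⟨h4, h5, h6, h7⟩ := R.adj (x i) q (hq i).symm
    linarith
  · exact four_low R hpq hpqn hx hp hq hqp
      (fun i => lt_of_le_of_ne (hle i) (fun hi => h ⟨i, hi⟩))

/-- Two common neighbours of large, different tolerances: one is short. -/
lemma high_nested {p q x y : V} (hpq : p ≠ q) (hpqn : ¬ G.Adj p q) (hxy : x ≠ y)
    (hxyn : ¬ G.Adj x y) (hpx : G.Adj p x) (hpy : G.Adj p y) (hqx : G.Adj q x) (hqy : G.Adj q y)
    (h1 : R.T p < R.T y) (h2 : R.T q < R.T y) (h3 : R.T y < R.T x) :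
    R.b y - R.a y < R.T x := by
  have e1 := R.sep _ _ h1
  have e2 := R.sep _ _ h2
  have hy := R.pos y
  obtain ⟨a1, a2, a3, a4⟩ := R.adj x p hpx.symm
  obtain ⟨b1, b2, b3, b4⟩ := R.adj y p hpy.symm
  obtain ⟨c1, c2, c3, c4⟩ := R.adj x q hqx.symm
  obtain ⟨d1, d2, d3, d4⟩ := R.adj y q hqy.symm
  by_contra hcon
  rw [not_lt] at hcon
  rcases R.non p q hpq hpqn (R.T y / 4) (by linarith) (by linarith) with h | h | h | h <;>
    rcases R.non x y hxy hxyn (R.T x) le_rfl h3.le with h' | h' | h' | h' <;> linarith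

/-- Four common neighbours of two hubs, the second of which is short. -/
lemma short_hub {x y : V} {z : Fin 4 → V} (hxy : x ≠ y) (hxyn : ¬ G.Adj x y)
    (hz : ∀ i j, i ≠ j → z i ≠ z j ∧ ¬ G.Adj (z i) (z j))
    (hx : ∀ i, G.Adj x (z i)) (hy : ∀ i, G.Adj y (z i)) (hyx : R.T y ≤ R.T x)
    (hshort : R.b y - R.a y < R.T x) : False := by
  refine four_low R hxy hxyn hz hx hy hyx (fun i => ?_)
  obtain ⟨h4, h5, h6, h7⟩ := R.adj (z i) y (hy i).symm
  linarith

/-! ### The graph has no representation -/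

lemma rim_indep (i j : Fin 7) : ¬ exampleGraph.Adj (.rim i) (.rim j) := fun h => h

lemma pole_rim (j : Fin 2) (i : Fin 7) : exampleGraph.Adj (.pole j) (.rim i) := trivial

/-- two poles and the two inner vertices of a sector -/
def sector (i : Fin 7) : Fin 4 → Vtx := ![.pole 0, .pole 1, .inner i 0, .inner i 1]

lemma sector_indep (i : Fin 7) (a b : Fin 4) (hab : a ≠ b) :
    sector i a ≠ sector i b ∧ ¬ exampleGraph.Adj (sector i a) (sector i b) := by
  fin_cases a <;> fin_cases b <;> first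
    | exact absurd rfl hab
    | exact ⟨by simp [sector], fun h => h⟩

lemma sector_left (i : Fin 7) (a : Fin 4) : exampleGraph.Adj (.rim i) (sector i a) := by
  fin_cases a
  · exact trivial
  · exact trivial
  · exact Or.inl rfl
  · exact Or.inl rfl

lemma sector_right (i : Fin 7) (a : Fin 4) : exampleGraph.Adj (.rim (i + 1)) (sector i a) := by
  fin_cases a
  · exact trivial
  · exact trivial
  · exact Or.inr rfl
  · exact Or.inr rfl

lemma two_consecutive : ∀ L : Finset (Fin 7), L.card ≤ 3 → ∃ i, i ∉ L ∧ i + 1 ∉ L := by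
  decide +kernel

lemma no_rep_aux (R : Rep exampleGraph) (p q : Vtx)
    (hpq : (p = .pole 0 ∧ q = .pole 1) ∨ (p = .pole 1 ∧ q = .pole 0)) (hT : R.T q ≤ R.T p) :
    False := by
  classical
  have hne : p ≠ q := by rcases hpq with ⟨rfl, rfl⟩ | ⟨rfl, rfl⟩ <;> simp
  have hnadj : ¬ exampleGraph.Adj p q := by
    rcases hpq with ⟨rfl, rfl⟩ | ⟨rfl, rfl⟩ <;> exact fun h => h
  have hp : ∀ i, exampleGraph.Adj p (.rim i) := by
    rcases hpq with ⟨rfl, rfl⟩ | ⟨rfl, rfl⟩ <;> exact fun i => trivial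
  have hq : ∀ i, exampleGraph.Adj q (.rim i) := by
    rcases hpq with ⟨rfl, rfl⟩ | ⟨rfl, rfl⟩ <;> exact fun i => trivial
  let L : Finset (Fin 7) := Finset.univ.filter (fun i => R.T (.rim i) ≤ R.T p)
  have hL : L.card ≤ 3 := by
    by_contra hcon
    obtain ⟨L', hL', hcard⟩ := Finset.exists_subset_card_eq (show 4 ≤ L.card by omega)
    let f := L'.orderEmbOfFin hcard
    refine four_le R (x := fun i => .rim (f i)) hne hnadj ?_ (fun i => hp _) (fun i => hq _) hT ?_
    · intro i j hij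
      refine ⟨fun h => hij (f.injective ?_), rim_indep _ _⟩
      simpa using h
    · intro i
      have h1 : f i ∈ L := hL' (L'.orderEmbOfFin_mem hcard i)
      exact (Finset.mem_filter.1 h1).2
  obtain ⟨i, hi, hi'⟩ := two_consecutive L hL
  have hx : R.T p < R.T (.rim i) := by
    by_contra h
    exact hi (Finset.mem_filter.2 ⟨Finset.mem_univ _, not_lt.1 h⟩)
  have hy : R.T p < R.T (.rim (i + 1)) := by
    by_contra h
    exact hi' (Finset.mem_filter.2 ⟨Finset.mem_univ _, not_lt.1 h⟩)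
  have hii : i ≠ i + 1 := by
    have : ∀ i : Fin 7, i ≠ i + 1 := by decide
    exact this i
  have hxy : (Vtx.rim i) ≠ .rim (i + 1) := fun h => hii (Vtx.rim.inj h)
  rcases lt_trichotomy (R.T (.rim i)) (R.T (.rim (i + 1))) with h | h | h
  · refine short_hub R hxy.symm (rim_indep _ _) (sector_indep i) (sector_right i) (sector_left i)
      h.le ?_
    exact high_nested R hne hnadj hxy.symm (rim_indep _ _) (hp _) (hp _) (hq _) (hq _) hx
      (lt_of_le_of_lt hT hx) h
  · exact equal_opposite R hxy (rim_indep _ _) hne hnadj (hp _).symm (hq _).symm (hp _).symm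
      (hq _).symm h hx.le (hT.trans hx.le)
  · refine short_hub R hxy (rim_indep _ _) (sector_indep i) (sector_left i) (sector_right i)
      h.le ?_
    exact high_nested R hne hnadj hxy (rim_indep _ _) (hp _) (hp _) (hq _) (hq _) hy
      (lt_of_le_of_lt hT hy) h

lemma no_rep (R : Rep exampleGraph) : False := by
  rcases le_total (R.T (.pole 0)) (R.T (.pole 1)) with h | h
  · exact no_rep_aux R _ _ (Or.inr ⟨rfl, rfl⟩) h
  · exact no_rep_aux R _ _ (Or.inl ⟨rfl, rfl⟩) h

/-! ### The Archimedean function -/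

/-- `4 ^ ⌈max(x,y)⌉` -/
noncomputable def phi (x y : ℝ) : ℝ := 4 ^ ⌈max x y⌉₊

lemma le_phi_left (x y : ℝ) : x ≤ phi x y := by
  have h1 : x ≤ (⌈max x y⌉₊ : ℝ) := (le_max_left x y).trans (Nat.le_ceil _)
  have h2 : ((⌈max x y⌉₊ : ℕ) : ℝ) ≤ 4 ^ ⌈max x y⌉₊ := by
    exact_mod_cast (Nat.lt_pow_self (by norm_num : 1 < 4)).le
  exact h1.trans h2

lemma phi_symm (x y : ℝ) : phi x y = phi y x := by
  unfold phi
  rw [max_comm]

lemma phi_arch : IsArchimedeanFunction phi := by
  refine ⟨fun x y _ _ => phi_symm x y, fun x y _ _ => ?_, fun c _ => ?_, fun c _ => ?_⟩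
  · unfold phi
    positivity
  · exact Filter.tendsto_atTop_mono (fun x => le_phi_left x c) Filter.tendsto_id
  · refine Filter.tendsto_atTop_mono (fun x => ?_) Filter.tendsto_id
    rw [phi_symm]
    exact le_phi_left x c

lemma rep_of_tolerance {V : Type} {G : SimpleGraph V} (h : IsToleranceGraph phi G) :
    Nonempty (Rep G) := by
  obtain ⟨a, b, t, hab, ht, hadj⟩ := h
  have hmono : ∀ x y : ℝ, x ≤ y → (4 : ℝ) ^ ⌈x⌉₊ ≤ 4 ^ ⌈y⌉₊ := fun x y hxy =>
    pow_le_pow_right₀ (by norm_num) (Nat.ceil_mono hxy)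
  refine ⟨⟨a, b, fun v => 4 ^ ⌈t v⌉₊, fun v => by positivity, ?_, ?_, ?_⟩⟩
  · intro u v huv
    have h1 : ⌈t u⌉₊ < ⌈t v⌉₊ := by
      by_contra hcon
      exact absurd huv (not_lt.2 (pow_le_pow_right₀ (by norm_num) (not_lt.1 hcon)))
    calc (4 : ℝ) * 4 ^ ⌈t u⌉₊ = 4 ^ (⌈t u⌉₊ + 1) := by ring
      _ ≤ 4 ^ ⌈t v⌉₊ := pow_le_pow_right₀ (by norm_num) h1
  · intro u v huv
    have h1 := (hadj u v huv.ne).1 huv
    have h2 : (4 : ℝ) ^ ⌈t u⌉₊ ≤ phi (t u) (t v) := hmono _ _ (le_max_left _ _)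
    exact le_overlap (by positivity) (h2.trans h1)
  · intro u v huv hn m hu hv
    have h1 : ¬ (phi (t u) (t v) ≤ overlap (a u) (b u) (a v) (b v)) :=
      fun h => hn ((hadj u v huv).2 h)
    have h2 : phi (t u) (t v) ≤ m := by
      unfold phi
      rcases max_choice (t u) (t v) with h | h <;> rw [h] <;> assumption
    exact overlap_lt (lt_of_lt_of_le (not_le.1 h1) h2)

end Pool.Agent.W126.NonArch

namespace Pool.Agent.Results.MP_3f93e8_co.ExplicitPlanarGraph

open Pool.Agent.W126.NonArch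

/-- The explicit graph `exampleGraph` on 23 vertices is non-Archimedean. -/
theorem result : NonArchimedean exampleGraph :=
  ⟨phi, phi_arch, fun h => (rep_of_tolerance h).elim no_rep⟩

end Pool.Agent.Results.MP_3f93e8_co.ExplicitPlanarGraph
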